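import Mathlib

set_option autoImplicit false
open scoped ENNReal

namespace Pool.Agent.Results.MP_579095_an.Yes

universe u v w

theorem result (p : ℝ≥0∞) [Fact (1 ≤ p)] (hp : p ≠ ⊤) (G : Type u) [Group G] [Fintype G]
    (A : Type v) [NonUnitalNormedRing A] [NormedSpace ℂ A] (α : G →* (A ≃ₗᵢ[ℂ] A))
    (E : Type w) [NormedAddCommGroup E] [NormedSpace ℂ E] (π : A →L[ℂ] E →L[ℂ] E)
    (v : G →* (E ≃ₗᵢ[ℂ] E)) (cov : ∀ g x ξ, v g (π x ((v g).symm ξ)) = π (α g x) ξ) (a : G → A) :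
    ∃ T : PiLp p (fun _ : G => E) →L[ℂ] PiLp p (fun _ : G => E),
      (∀ ξ h, T ξ h = ∑ g, π (α h⁻¹ (a g)) (ξ (g⁻¹ * h))) ∧
      ‖∑ g, (π (a g)).comp (v g : E →L[ℂ] E)‖ ≤ ‖T‖ := by
  let T : PiLp p (fun _ : G => E) →L[ℂ] PiLp p (fun _ : G => E) :=
    ((PiLp.continuousLinearEquiv p ℂ fun _ : G => E).symm : (G → E) →L[ℂ] _).comp
      (.pi fun h => ∑ g, (π (α h⁻¹ (a g))).comp (PiLp.proj p (fun _ : G => E) (g⁻¹ * h)))
  have hT : ∀ ξ h, T ξ h = ∑ g, π (α h⁻¹ (a g)) (ξ (g⁻¹ * h)) := fun ξ h => by simp [T]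
  refine ⟨T, hT, ContinuousLinearMap.opNorm_le_bound _ (norm_nonneg _) fun ξ => ?_⟩
  have p0 : 0 < p.toReal := ENNReal.toReal_pos (zero_lt_one.trans_le Fact.out).ne' hp
  have n : ∀ η : E, ‖(WithLp.toLp p fun h : G => v h⁻¹ η : PiLp p fun _ : G => E)‖ =
      (Fintype.card G : ℝ) ^ (1 / p.toReal) * ‖η‖ := fun η => by
    rw [PiLp.norm_eq_sum p0]
    simp only [LinearIsometryEquiv.norm_map, Finset.sum_const, Finset.card_univ, nsmul_eq_mul]
    rw [Real.mul_rpow (by positivity) (by positivity), one_div, Real.rpow_rpow_inv (norm_nonneg _) p0.ne']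
  have e : T (WithLp.toLp p fun h : G => v h⁻¹ ξ) =
      WithLp.toLp p fun h : G => v h⁻¹ ((∑ g, (π (a g)).comp (v g : E →L[ℂ] E)) ξ) := by
    ext h
    simp only [hT, ← cov, ContinuousLinearMap.sum_apply, map_sum]
    refine Finset.sum_congr rfl fun g _ => ?_
    rw [mul_inv_rev, inv_inv, map_mul, LinearIsometryEquiv.mul_def, LinearIsometryEquiv.trans_apply,
      LinearIsometryEquiv.symm_apply_apply]
    rfl
  have := T.le_opNorm (WithLp.toLp p fun h : G => v h⁻¹ ξ)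
  rw [e, n, n, mul_left_comm] at this
  exact le_of_mul_le_mul_left this (by have := Fintype.card_pos (α := G); positivity)

end Pool.Agent.Results.MP_579095_an.Yes
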